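import Pool.Agent.H837.AB.Defs

/-!
# Pluricanonical sections, and rational curves through all points
-/

set_option autoImplicit false

namespace Pool.Agent.H837.KU

open MvPolynomial Pool.Agent.H837.AB

variable {K : Type} [Field K] {r N : ℕ}

/-- For some `m` between `1` and `c` the `m`-th power of the canonical bundle of `X` has a nonzero
section, given by forms with denominators of exponent `m (r + 1) + c`. The degree of `F i` is `δ i`. -/
def NonvanishingBy (e c : ℕ) (δ : Fin N → ℕ) (F : Fin N → MvPolynomial (Fin (r + 1)) K) : Prop :=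
  ∃ m, m ≤ c ∧ 1 ≤ m ∧ ∃ P : (Fin e → Fin N) × Fin (r + 1) → MvPolynomial (Fin (r + 1)) K,
    (∀ a, (P a).IsHomogeneous (m * (∑ i, δ (a.1 i)) + c)) ∧ IsCanonical e m c F P ∧
      ∃ a, ∃ x : Fin (r + 1) → K, x ≠ 0 ∧ Zero F x ∧ eval x (P a) ≠ 0

/-- Through every point `x` of `X` passes a rational curve in `X`: there is a map `τ` of degree `k`,
`1 ≤ k ≤ c`, from the projective line to `X` with `x` in its image. -/
def UniruledBy (c : ℕ) (F : Fin N → MvPolynomial (Fin (r + 1)) K) : Prop :=
  ∀ x : Fin (r + 1) → K, x ≠ 0 → Zero F x → ∃ k, k ≤ c ∧ 1 ≤ k ∧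
    ∃ τ : Fin (r + 1) → MvPolynomial (Fin 2) K, (∀ a, (τ a).IsHomogeneous k) ∧
      (∀ s : Fin 2 → K, s ≠ 0 → ∃ a, eval s (τ a) ≠ 0) ∧
      (∀ s : Fin 2 → K, Zero F fun a => eval s (τ a)) ∧
      ∃ s : Fin 2 → K, (fun a => eval s (τ a)) = x

/-- The question for smooth projective varieties of dimension `n` over the field `K`: if no power of
the canonical bundle has a nonzero section then there are rational curves of bounded degree through all
points. -/
def Question (n : ℕ) (K : Type) [Field K] : Prop :=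
  ∀ (e N : ℕ) (δ : Fin N → ℕ) (F : Fin N → MvPolynomial (Fin (n + e + 1)) K),
    (∀ i, (F i).IsHomogeneous (δ i)) → (∃ b, SmoothBy e b F) →
      (∀ c, ¬ NonvanishingBy e c δ F) → ∃ c, UniruledBy c F

end Pool.Agent.H837.KU
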