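import Pool.Agent.H837.AB.Main
import Pool.Agent.H837.KU.Defs

/-!
# Uniformity for varieties of negative Kodaira dimension
-/

set_option autoImplicit false

namespace Pool.Agent.H837.KU

open MvPolynomial Pool.Agent.H837.UF Pool.Agent.H837.SP Pool.Agent.H837.UR Pool.Agent.H837.AB
open Filter hiding map

section Mono

variable {K : Type} [Field K] {r N : ℕ}

theorem NonvanishingBy.mono {e c c' : ℕ} (hcc : c ≤ c') {δ : Fin N → ℕ}
    {F : Fin N → MvPolynomial (Fin (r + 1)) K} (h : NonvanishingBy e c δ F) :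
    NonvanishingBy e c' δ F := by
  obtain ⟨m, hm, hm1, P, hP, hcan, ⟨T, i⟩, x, hx, hX, hne⟩ := h
  refine ⟨m, hm.trans hcc, hm1, fun a => X a.2 ^ (c' - c) * P a, fun a => ?_,
    fun y hy => ⟨fun T j j' => ?_, fun T T' A j => ?_⟩, ⟨T, i⟩, x, hx, hX, ?_⟩
  · have h1 := ((isHomogeneous_X K a.2).pow (c' - c)).mul (hP a)
    have h2 : 1 * (c' - c) + (m * (∑ i, δ (a.1 i)) + c) = m * (∑ i, δ (a.1 i)) + c' := by omega
    rw [h2] at h1
    exact h1
  · have h1 := (hcan y hy).1 T j j'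
    rw [eval_mul, eval_mul, eval_pow, eval_pow, eval_X, eval_X]
    have h2 : m * (r + 1) + c' = (m * (r + 1) + c) + (c' - c) := by omega
    rw [h2, pow_add, pow_add]
    linear_combination (y j' ^ (c' - c) * y j ^ (c' - c)) * h1
  · have h1 := (hcan y hy).2 T T' A j
    rw [eval_mul, eval_mul, eval_pow, eval_X]
    linear_combination (y j ^ (c' - c)) * h1
  · rw [eval_mul, eval_pow, eval_X]
    refine mul_ne_zero (pow_ne_zero _ ?_) hne
    intro h0
    obtain ⟨j', hj'⟩ : ∃ j', x j' ≠ 0 := by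
      by_contra hcon
      push Not at hcon
      exact hx (_root_.funext hcon)
    have h1 := (hcan x hX).1 T i j'
    have h2 : m * (r + 1) + c ≠ 0 := by
      have : 0 < m * (r + 1) := Nat.mul_pos (by omega) (Nat.succ_pos r)
      omega
    rw [h0, zero_pow h2, zero_mul] at h1
    exact (mul_ne_zero (pow_ne_zero _ hj') hne) h1

theorem UniruledBy.mono {c c' : ℕ} (hcc : c ≤ c') {F : Fin N → MvPolynomial (Fin (r + 1)) K}
    (h : UniruledBy c F) : UniruledBy c' F := by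
  intro x hx hX
  obtain ⟨k, hk, h1⟩ := h x hx hX
  exact ⟨k, hk.trans hcc, h1⟩

end Mono

section Los

variable {J : Type} {U : Ultrafilter J} {K : J → Type} [∀ j, Field (K j)] {L : Type} [Field L]
  {π : (∀ j, K j) →+* L} (hπ : IsUltra U π) {r N : ℕ}
  (F : Fin N → MvPolynomial (Fin (r + 1)) (∀ j, K j))

include hπ

theorem ex_le (c : ℕ) {A : ℕ → Prop} {B : ℕ → J → Prop} (h : ∀ m, A m ↔ ∀ᶠ j in U, B m j) :
    (∃ m, m ≤ c ∧ 1 ≤ m ∧ A m) ↔ ∀ᶠ j in U, ∃ m, m ≤ c ∧ 1 ≤ m ∧ B m j := by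
  have h3 := ex_fin (ι := Fin (c + 1)) (U := U) (A := fun m : Fin (c + 1) => 1 ≤ (m : ℕ) ∧ A m)
    (B := fun (m : Fin (c + 1)) j => 1 ≤ (m : ℕ) ∧ B m j) fun m =>
      and_iff (const_prop (P := 1 ≤ (m : ℕ))) (h m)
  have h4 : ∀ P : ℕ → Prop, (∃ m, m ≤ c ∧ P m) ↔ ∃ m : Fin (c + 1), P m := by
    intro P
    constructor
    · rintro ⟨m, hm, h⟩
      exact ⟨⟨m, Nat.lt_succ_of_le hm⟩, h⟩
    · rintro ⟨m, h⟩
      exact ⟨m, Nat.le_of_lt_succ m.2, h⟩
  simp only [h4]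
  exact h3

theorem nonvanishing_los (e c : ℕ) (δ : Fin N → ℕ) :
    NonvanishingBy e c δ (lim π F) ↔ ∀ᶠ j in U, NonvanishingBy e c δ (at' F j) := by
  refine ex_le hπ c fun m => ?_
  refine ex_form hπ (fun a : (Fin e → Fin N) × Fin (r + 1) => m * (∑ i, δ (a.1 i)) + c)
    fun Q => and_iff (canonical_iff hπ F e m c Q) (ex_fin fun a => ex_vec hπ fun x =>
      and_iff (vec_ne hπ x) (and_iff (zero_los hπ F x) (not_iff (zero_iff hπ x (Q a)))))

theorem uniruled_los (c : ℕ) :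
    UniruledBy c (lim π F) ↔ ∀ᶠ j in U, UniruledBy c (at' F j) := by
  refine all_vec hπ fun x => imp_iff (vec_ne hπ x) (imp_iff (zero_los hπ F x) ?_)
  refine ex_le hπ c fun m => ?_
  refine ex_form hπ (fun _ => m) fun τ => and_iff ?_ (and_iff ?_ ?_)
  · exact all_vec hπ fun s => imp_iff (vec_ne hπ s) (ex_fin fun a => not_iff (zero_iff hπ s (τ a)))
  · exact all_vec hπ fun s => all_fin fun i => comp_iff hπ s τ (F i)
  · exact ex_vec hπ fun s => value_iff hπ s τ x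

end Los

theorem nonvanishing_isLos {r N : ℕ} (e c : ℕ) (δ : Fin N → ℕ) :
    IsLosN (r := r) (N := N) fun _ _ F => NonvanishingBy e c δ F :=
  fun _ _ _ _ _ _ _ _ hπ F => nonvanishing_los hπ F e c δ

theorem uniruled_isLos {r N : ℕ} (c : ℕ) :
    IsLosN (r := r) (N := N) fun _ _ F => UniruledBy c F :=
  fun _ _ _ _ _ _ _ _ hπ F => uniruled_los hπ F c

theorem uniform_isLos {r N : ℕ} (e b c : ℕ) (δ : Fin N → ℕ) :
    IsLosN (r := r) (N := N) fun _ _ F => SmoothBy e b F → ¬ NonvanishingBy e c δ F →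
      UniruledBy c F :=
  fun _ _ _ _ _ _ _ _ hπ F => imp_iff (smooth_los hπ F e b)
    (imp_iff (not_iff (nonvanishing_los hπ F e c δ)) (uniruled_los hπ F c))

theorem family_tfae (r N e b : ℕ) (δ : Fin N → ℕ) :
    [∀ F : Fin N → MvPolynomial (Fin (r + 1)) ℂ, (∀ i, (F i).IsHomogeneous (δ i)) →
       SmoothBy e b F → (∀ c, ¬ NonvanishingBy e c δ F) → ∃ c, UniruledBy c F,
     ∃ c M : ℕ, M ≠ 0 ∧ ∀ (K : Type) [Field K] [IsAlgClosed K], (M : K) ≠ 0 →
       ∀ F : Fin N → MvPolynomial (Fin (r + 1)) K, (∀ i, (F i).IsHomogeneous (δ i)) →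
         SmoothBy e b F → ¬ NonvanishingBy e c δ F → UniruledBy c F,
     ∃ c ℓ₀ : ℕ, ∀ (ℓ : ℕ) [Fact ℓ.Prime], ℓ₀ ≤ ℓ →
       ∀ F : Fin N → MvPolynomial (Fin (r + 1)) (AlgebraicClosure (ZMod ℓ)),
         (∀ i, (F i).IsHomogeneous (δ i)) → SmoothBy e b F → ¬ NonvanishingBy e c δ F →
           UniruledBy c F,
     ∃ c : ℕ, ∀ ℓ₀ : ℕ, ∃ (ℓ : ℕ) (_ : Fact ℓ.Prime), ℓ₀ ≤ ℓ ∧
       ∀ F : Fin N → MvPolynomial (Fin (r + 1)) (AlgebraicClosure (ZMod ℓ)),
         (∀ i, (F i).IsHomogeneous (δ i)) → SmoothBy e b F → ¬ NonvanishingBy e c δ F →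
           UniruledBy c F].TFAE := by
  have hfin : Finite (Expos r δ) := Finite.of_fintype (Expos r δ)
  have hft := finiteType_int (Expos r δ)
  have hT := uniform_tfae (R := MvPolynomial (Expos r δ) ℤ)
    (Q := fun c K _ t => SmoothBy e b (fun i => map t (generics r δ i)) →
      ¬ NonvanishingBy e c δ (fun i => map t (generics r δ i)) →
        UniruledBy c fun i => map t (generics r δ i))
    (fun c => (uniform_isLos e b c δ).elementary (generics r δ))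
    (fun c c' hcc K _ φ h h1 h2 => (h h1 fun h3 => h2 (h3.mono hcc)).mono hcc)
  have hdeg : ∀ (K : Type) [Field K] (t : MvPolynomial (Expos r δ) ℤ →+* K) (i : Fin N),
      (map t (generics r δ i)).IsHomogeneous (δ i) := fun K _ t i =>
    (generics_isHomogeneous r δ i).map t
  have key : ∀ (c : ℕ) (K : Type) [Field K],
      (∀ t : MvPolynomial (Expos r δ) ℤ →+* K, SmoothBy e b (fun i => map t (generics r δ i)) →
        ¬ NonvanishingBy e c δ (fun i => map t (generics r δ i)) →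
          UniruledBy c fun i => map t (generics r δ i)) ↔
      ∀ F : Fin N → MvPolynomial (Fin (r + 1)) K, (∀ i, (F i).IsHomogeneous (δ i)) →
        SmoothBy e b F → ¬ NonvanishingBy e c δ F → UniruledBy c F := by
    intro c K _
    constructor
    · intro h F hF h1 h2
      obtain ⟨t, rfl⟩ := exists_homs hF
      exact h t h1 h2
    · intro h t h1 h2
      exact h _ (hdeg K t) h1 h2
  tfae_have 1 → 2 := by
    intro h
    have h02 := hT.out 0 2
    obtain ⟨c, M, hM, hc⟩ := h02.mp fun t => by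
      by_cases h1 : SmoothBy e b (fun i => map t (generics r δ i))
      · by_cases h2 : ∀ c, ¬ NonvanishingBy e c δ fun i => map t (generics r δ i)
        · obtain ⟨c, hc⟩ := h _ (hdeg ℂ t) h1 h2
          exact ⟨c, fun _ _ => hc⟩
        · push Not at h2
          obtain ⟨k, hk⟩ := h2
          exact ⟨k, fun _ h3 => absurd hk h3⟩
      · exact ⟨0, fun h3 => absurd h3 h1⟩
    exact ⟨c, M, hM, fun K _ _ hMK => (key c K).mp fun t => hc K t hMK⟩
  tfae_have 2 → 3 := by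
    rintro ⟨c, M, hM, hc⟩
    refine ⟨c, M + 1, fun ℓ hℓ hle => hc _ ?_⟩
    intro h0
    rw [CharP.cast_eq_zero_iff (AlgebraicClosure (ZMod ℓ)) ℓ] at h0
    have h3 := Nat.le_of_dvd (Nat.pos_of_ne_zero hM) h0
    omega
  tfae_have 3 → 4 := by
    rintro ⟨c, ℓ₀, hc⟩
    refine ⟨c, fun ℓ₁ => ?_⟩
    obtain ⟨ℓ, hle, hℓ⟩ := Nat.exists_infinite_primes (max ℓ₀ ℓ₁)
    have hf : Fact ℓ.Prime := ⟨hℓ⟩
    exact ⟨ℓ, hf, (le_max_right _ _).trans hle, hc ℓ ((le_max_left _ _).trans hle)⟩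
  tfae_have 4 → 1 := by
    rintro ⟨c, hc⟩
    have h41 := hT.out 4 1
    obtain ⟨c', hc'⟩ := h41.mp ⟨c, fun ℓ₀ => by
      obtain ⟨ℓ, hf, hle, h⟩ := hc ℓ₀
      exact ⟨ℓ, hf, hle, (key c _).mpr h⟩⟩
    intro F hF h1 h2
    exact ⟨c', (key c' ℂ).mp hc' F hF h1 (h2 c')⟩
  tfae_finish

/-- **Negative Kodaira dimension and uniruledness: bounded statements over finite fields.** -/
theorem question_tfae (n : ℕ) :
    [∀ (K : Type) [Field K] [IsAlgClosed K] [CharZero K], Question n K,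
     Question n ℂ,
     ∀ (e N b : ℕ) (δ : Fin N → ℕ), ∃ c M : ℕ, M ≠ 0 ∧
       ∀ (K : Type) [Field K] [IsAlgClosed K], (M : K) ≠ 0 →
       ∀ F : Fin N → MvPolynomial (Fin (n + e + 1)) K, (∀ i, (F i).IsHomogeneous (δ i)) →
         SmoothBy e b F → ¬ NonvanishingBy e c δ F → UniruledBy c F,
     ∀ (e N b : ℕ) (δ : Fin N → ℕ), ∃ c ℓ₀ : ℕ, ∀ (ℓ : ℕ) [Fact ℓ.Prime], ℓ₀ ≤ ℓ →
       ∀ F : Fin N → MvPolynomial (Fin (n + e + 1)) (AlgebraicClosure (ZMod ℓ)),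
         (∀ i, (F i).IsHomogeneous (δ i)) → SmoothBy e b F → ¬ NonvanishingBy e c δ F →
           UniruledBy c F,
     ∀ (e N b : ℕ) (δ : Fin N → ℕ), ∃ c : ℕ, ∀ ℓ₀ : ℕ, ∃ (ℓ : ℕ) (_ : Fact ℓ.Prime), ℓ₀ ≤ ℓ ∧
       ∀ F : Fin N → MvPolynomial (Fin (n + e + 1)) (AlgebraicClosure (ZMod ℓ)),
         (∀ i, (F i).IsHomogeneous (δ i)) → SmoothBy e b F → ¬ NonvanishingBy e c δ F →
           UniruledBy c F].TFAE := by
  tfae_have 1 → 2 := fun h => h ℂ
  tfae_have 2 → 3 := by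
    intro h e N b δ
    exact ((family_tfae (n + e) N e b δ).out 0 1).mp fun F hF h1 h2 => h e N δ F hF ⟨b, h1⟩ h2
  tfae_have 3 → 1 := by
    intro h K _ _ _ e N δ F hF h1 h2
    obtain ⟨b, hb⟩ := h1
    obtain ⟨c, M, hM, hc⟩ := h e N b δ
    exact ⟨c, hc K (Nat.cast_ne_zero.mpr hM) F hF hb (h2 c)⟩
  tfae_have 3 ↔ 4 := forall_congr' fun e => forall_congr' fun N =>
    forall_congr' fun b => forall_congr' fun δ => (family_tfae (n + e) N e b δ).out 1 2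
  tfae_have 3 ↔ 5 := forall_congr' fun e => forall_congr' fun N =>
    forall_congr' fun b => forall_congr' fun δ => (family_tfae (n + e) N e b δ).out 1 3
  tfae_finish

/-- Reductions of one system of polynomials over the integers. -/
theorem reductions_tfae {r N : ℕ}
    {P : ℕ → ∀ (K : Type) [Field K], (Fin N → MvPolynomial (Fin (r + 1)) K) → Prop}
    (hP : ∀ c, IsLosN (P c))
    (hm : ∀ c c', c ≤ c' → ∀ (K : Type) [Field K] (F : Fin N → MvPolynomial (Fin (r + 1)) K),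
      P c K F → P c' K F) (F : Fin N → MvPolynomial (Fin (r + 1)) ℤ) :
    [∃ c, P c ℂ fun i => map (Int.castRingHom ℂ) (F i),
     ∃ c ℓ₀ : ℕ, ∀ (ℓ : ℕ) [Fact ℓ.Prime], ℓ₀ ≤ ℓ →
       P c (AlgebraicClosure (ZMod ℓ)) fun i => map (Int.castRingHom (AlgebraicClosure (ZMod ℓ))) (F i),
     ∃ c : ℕ, ∀ ℓ₀ : ℕ, ∃ (ℓ : ℕ) (_ : Fact ℓ.Prime), ℓ₀ ≤ ℓ ∧
       P c (AlgebraicClosure (ZMod ℓ)) fun i =>
         map (Int.castRingHom (AlgebraicClosure (ZMod ℓ))) (F i)].TFAE := by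
  have hT := uniform_tfae (R := ℤ) (Q := fun c K _ t => P c K fun i => map t (F i))
    (fun c => (hP c).elementary F) (fun c c' hcc K _ φ h => hm c c' hcc K _ h)
  have key : ∀ (K : Type) [Field K] (t : ℤ →+* K), t = Int.castRingHom K := fun K _ t =>
    RingHom.ext_int _ _
  tfae_have 1 ↔ 2 := by
    have h1 := hT.out 0 3
    constructor
    · intro h
      obtain ⟨c, ℓ₀, hc⟩ := h1.mp fun t => by rw [key ℂ t]; exact h
      exact ⟨c, ℓ₀, fun ℓ _ hle => hc ℓ hle _⟩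
    · rintro ⟨c, ℓ₀, hc⟩
      exact (key ℂ (Int.castRingHom ℂ)) ▸ h1.mpr ⟨c, ℓ₀, fun ℓ _ hle t => by rw [key _ t]; exact hc ℓ hle⟩ (Int.castRingHom ℂ)
  tfae_have 1 ↔ 3 := by
    have h1 := hT.out 0 4
    constructor
    · intro h
      obtain ⟨c, hc⟩ := h1.mp fun t => by rw [key ℂ t]; exact h
      refine ⟨c, fun ℓ₀ => ?_⟩
      obtain ⟨ℓ, hf, hle, hℓ⟩ := hc ℓ₀
      exact ⟨ℓ, hf, hle, hℓ _⟩
    · rintro ⟨c, hc⟩
      refine h1.mpr ⟨c, fun ℓ₀ => ?_⟩ _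
      obtain ⟨ℓ, hf, hle, hℓ⟩ := hc ℓ₀
      exact ⟨ℓ, hf, hle, fun t => by rw [key _ t]; exact hℓ⟩
  tfae_finish

end Pool.Agent.H837.KU
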